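import Pool.Agent.V5helper73.SZ.StmD

/-! # Project SZ, job OMS: a map of the class Σ omits a value -/

set_option autoImplicit false
open Complex Metric Set Filter Topology MeasureTheory

namespace V5helper68.SZ

/-- An injective holomorphic map of the exterior of the disc without critical points omits a value: otherwise
its inverse would be an entire function with values outside of the disc, so constant. -/
theorem omit_value {ψ : ℂ → ℂ} (hd : DifferentiableOn ℂ ψ {z : ℂ | 1 < ‖z‖})
    (hi : InjOn ψ {z : ℂ | 1 < ‖z‖}) (hne : ∀ z : ℂ, 1 < ‖z‖ → deriv ψ z ≠ 0) :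
    ∃ w : ℂ, ∀ z : ℂ, 1 < ‖z‖ → ψ z ≠ w := by
  by_contra hcon
  push Not at hcon
  choose g hg1 hg2 using hcon
  have hopen : IsOpen {z : ℂ | 1 < ‖z‖} := isOpen_lt continuous_const continuous_norm
  have hgd : Differentiable ℂ g := by
    intro w
    have hz : g w ∈ {z : ℂ | 1 < ‖z‖} := hg1 w
    have h1 : HasStrictDerivAt ψ (deriv ψ (g w)) (g w) :=
      (hd.analyticAt (hopen.mem_nhds hz)).hasStrictDerivAt
    have h2 := h1.to_localInverse (hne _ hz)
    have h1' := h1.hasStrictFDerivAt_equiv (hne _ hz)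
    have h3 := h1'.eventually_right_inverse
    have h4 := h1'.localInverse_continuousAt
    have h5 := h1'.localInverse_apply_image
    have h6 : ∀ᶠ y in 𝓝 (ψ (g w)), h1'.localInverse ψ _ (g w) y ∈ {z : ℂ | 1 < ‖z‖} := by
      apply h4.eventually
      rw [h5]
      exact hopen.mem_nhds hz
    have h7 : g =ᶠ[𝓝 (ψ (g w))] h1'.localInverse ψ _ (g w) := by
      filter_upwards [h3, h6] with y hy1 hy2
      exact hi (hg1 y) hy2 ((hg2 y).trans hy1.symm)
    have h8 := h2.hasDerivAt.congr_of_eventuallyEq h7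
    rw [hg2] at h8
    exact h8.differentiableAt
  have hg0 : ∀ w, g w ≠ 0 := by
    intro w h0
    have := hg1 w
    rw [h0, norm_zero] at this
    linarith
  have h9 : Differentiable ℂ (fun w => (g w)⁻¹) := hgd.inv hg0
  obtain ⟨c, hc⟩ := h9.exists_const_forall_eq_of_bounded (by
    rw [isBounded_iff_forall_norm_le]
    refine ⟨1, ?_⟩
    rintro _ ⟨w, rfl⟩
    rw [norm_inv]
    exact inv_le_one_of_one_le₀ (hg1 w).le)
  have h10 : g 0 = g 1 := inv_injective ((hc 0).trans (hc 1).symm)
  have h11 := congrArg ψ h10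
  rw [hg2, hg2] at h11
  exact zero_ne_one h11


/-- **OMS.** -/
theorem t_OMS : V5helper73.SZ.S_OMS := fun _ _ S =>
  omit_value S.1 S.2.1 fun z hz => by
    rw [← S.2.2.2.2.1 z hz]
    exact Complex.exp_ne_zero _

end V5helper68.SZ
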